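import Pool.Agent.PCO.StmtsB
import Pool.Agent.Helper76_PFJ.UNF

/-!
# NTS squad (MP_e54c4c_gt): row SPF, facts on special pairs
-/

set_option autoImplicit false

open Matrix Filter Topology

namespace Pool.Agent.PCO.H97

open Pool.Agent.PFS Pool.Agent.PFJ Pool.Agent.PCO

theorem spf (hWBF : WbfStmt) (hBF1 : Bf1Stmt) (hBF2 : Bf2Stmt) (hBXM : BxmStmt)
    (hBXW : BxwStmt) (hPRJ : PrjStmt) (hPRF : PrfStmt) : SpfStmt := by
  intro n C Γ d hH U v v' a ρ hS
  have hCC : CC C Γ := hH.toCC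
  have hP : PCone C := hCC.toPCone
  obtain ⟨p, hp⟩ := hPRJ n C Γ d hH U v hS.box hS.dim
  have hpv' : p v' = ρ • a := hS.prj p hp
  obtain ⟨haU, hacl, hane, hanu⟩ := hS.bd
  have hpa : p a = a := hp.idU a haU
  obtain ⟨f1, -, f3, -, -, f6, f7, -⟩ := hPRF n C Γ d hH U v hS.box hS.dim p hp
  obtain ⟨vlam, vcl, vne, vnU, -⟩ := hBF1 n C Γ hCC hH.maxc U v hS.box
  obtain ⟨wlam, wcl, wne, wnU, -⟩ := hBF1 n C Γ hCC hH.maxc U v' hS.box'
  -- `a + v + v'` is not in `C`
  have hnot : a + v + v' ∉ C := by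
    intro hin
    have h1 := f3 _ hin
    have h2 : p (a + v + v') = (1 + ρ) • a := by
      rw [map_add, map_add, hpa, f1, hpv', add_smul, one_smul, add_zero]
    rw [h2] at h1
    have hρ : 0 < 1 + ρ := by linarith [hS.pos]
    have h3 := (H76.unf n C hP U _ h1).1 (1 + ρ)⁻¹ (inv_pos.mpr hρ)
    rw [smul_smul, inv_mul_cancel₀ hρ.ne', one_smul] at h3
    exact hanu h3
  -- `v'` is not in the subspace of the box
  have hW : v' ∉ Wb U v := by
    intro hin
    have hext : Ext C v' := (hBXM n C Γ d hH U v' hS.box' hS.dim).2.2.2.2.1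
    rcases hBXW n C Γ hCC hH.maxc U v hS.box v' hin wcl hext wne with h1 | ⟨c, hc, h1⟩
    · exact wnU h1
    · have h2 : p v' = 0 := by rw [h1, map_smul, f1, smul_zero]
      rw [hpv'] at h2
      rcases smul_eq_zero.mp h2 with h3 | h3
      · exact hS.pos.ne' h3
      · exact hane h3
  have hWm := (hWBF n).1 U v
  -- (1)
  have h1 : ∃ M : ℝ, 0 < M ∧ M • (a + v) - v' ∈ closure C :=
    (hBF2 n C Γ hCC hH.maxc U v hS.box).2.2.2.2.2.2 a hS.bd v' wlam hnot
  refine ⟨h1, ?_, ⟨?_, ?_⟩, ?_, ?_⟩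
  · refine (hBF2 n C Γ hCC hH.maxc U v' hS.box').2.2.2.2.2.2 a hS.bd v vlam ?_
    intro hin
    apply hnot
    have e : a + v' + v = a + v + v' := by abel
    rwa [e] at hin
  · intro α β hab
    by_cases hβ : β = 0
    · refine ⟨?_, hβ⟩
      rw [hβ, zero_smul, add_zero] at hab
      rcases smul_eq_zero.mp hab with h | h
      · exact h
      · exact absurd h vne
    · exfalso
      apply hW
      rw [hWm]
      refine ⟨ρ • a, U.smul_mem _ haU, -(α / β), ?_⟩
      have e1 : β • v' = β • (ρ • a) - α • v := by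
        have e2 : β • v' = (α • v + β • (v' - ρ • a)) + (β • (ρ • a) - α • v) := by
          rw [smul_sub]; abel
        rw [e2, hab, zero_add]
      have e3 := congrArg (fun z => β⁻¹ • z) e1
      simp only [smul_sub] at e3
      rw [inv_smul_smul₀ hβ, inv_smul_smul₀ hβ, smul_smul] at e3
      rw [e3, neg_smul, sub_eq_add_neg, div_eq_inv_mul]
  · intro q hq
    rw [map_sub, map_smul, hS.prj q hq, hq.idU a haU, sub_self]
  · obtain ⟨M, hM, hMc⟩ := h1
    refine ⟨a + v + v', ⟨(1 + M)⁻¹, by positivity, ?_, ?_⟩, ?_⟩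
    · have e : (a + v) - (1 + M)⁻¹ • (a + v + v') = (1 + M)⁻¹ • (M • (a + v) - v') := by
        have hne : (1 + M) ≠ 0 := by positivity
        have e1 : (a + v) = (1 + M)⁻¹ • ((1 + M) • (a + v)) := by
          rw [smul_smul, inv_mul_cancel₀ hne, one_smul]
        have e2 : (1 + M)⁻¹ • ((1 + M) • (a + v)) - (1 + M)⁻¹ • (a + v + v')
            = (1 + M)⁻¹ • (M • (a + v) - v') := by
          rw [← smul_sub, add_smul, one_smul]
          congr 1
          abel
        rw [← e2, ← e1]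
      rw [e]
      exact hP.cl_smul hMc (by positivity)
    · have hle : (1 + M)⁻¹ ≤ 1 := inv_le_one_of_one_le₀ (by linarith)
      have e : (a + v + v') - (1 + M)⁻¹ • (a + v) = (1 - (1 + M)⁻¹) • (a + v) + v' := by
        rw [sub_smul, one_smul]; abel
      rw [e]
      exact hP.cl_add (hP.cl_smul (hP.cl_add hacl vcl) (by linarith)) wcl
    · intro s t hst
      apply hW
      rw [hWm]
      refine ⟨(s - 1) • a, U.smul_mem _ haU, t - 1, ?_⟩
      have e : v' = (a + v + v') - a - v := by abel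
      rw [e, hst, sub_smul, sub_smul, one_smul, one_smul]
      abel
  · intro g hg s hs
    obtain ⟨b1, -, b3⟩ := (hBF2 n C Γ hCC hH.maxc U v hS.box).2.2.2.2.2.1 g hg s hs
    obtain ⟨b1', -⟩ := (hBF2 n C Γ hCC hH.maxc U v' hS.box').2.2.2.2.2.1 g hg s hs
    have hdim : Module.finrank ℝ (img g U) = d := by
      rw [(hWBF n).2.2.2.2 g U]; exact hS.dim
    refine ⟨b1, b1', hdim, (b3 a).2 hS.bd, hS.pos, ?_⟩
    intro q hq
    obtain ⟨p', hp', hpx⟩ := f7 g hg s hs
    have hq0 : q (s • act g v) = 0 := (hPRF n C Γ d hH _ _ b1 hdim q hq).1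
    have hqe : q = p' :=
      (hPRF n C Γ d hH _ _ b1 hdim p' hp').2.2.2.2.2.1 q hq.pos hq.idU hq0
    rw [hqe, map_smul, hpx, hpv', CC.act_smul, smul_comm]

end Pool.Agent.PCO.H97
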